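import Pool.Agent.Lib.TrailT.Defs

namespace TrailT

open Finset

theorem moverWins_iff {V : Type*} [DecidableEq V] (E : Finset (Sym2 V)) (u v : V) :
    MoverWins E u v ↔ ∃ w, s(u, w) ∈ E ∧ ¬ MoverWins (E.erase s(u, w)) v w := by
  rw [MoverWins]
  simp only [exists_prop]

variable {q : ℕ}

/-- the untraversed edges described by masks -/
def edg (m : Fin q → Fin 5 → Bool) : Finset (Sym2 (Fin 5 ⊕ Fin q)) :=
  (univ.filter (fun p : Fin 5 × Fin q => m p.2 p.1 = true)).image
    (fun p => s(Sum.inl p.1, Sum.inr p.2))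

theorem mem_edg (m : Fin q → Fin 5 → Bool) (a : Fin 5) (x : Fin q) :
    s(Sum.inl a, Sum.inr x) ∈ edg m ↔ m x a = true := by
  unfold edg
  simp only [mem_image, mem_filter, mem_univ, true_and, Prod.exists, Sym2.eq_iff, Sum.inl.injEq,
    Sum.inr.injEq, reduceCtorEq, and_false, or_false, false_and]
  constructor
  · rintro ⟨a', x', h, rfl, rfl⟩; exact h
  · intro h; exact ⟨a, x, h, rfl, rfl⟩

theorem mem_edg_inl (m : Fin q → Fin 5 → Bool) (a : Fin 5) (z : Fin 5 ⊕ Fin q) :
    s(Sum.inl a, z) ∈ edg m ↔ ∃ x, z = Sum.inr x ∧ m x a = true := by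
  rcases z with z | x
  · constructor
    · intro h
      unfold edg at h
      simp [Sym2.eq_iff] at h
    · rintro ⟨x, h, -⟩; cases h
  · rw [mem_edg]
    constructor
    · intro h; exact ⟨x, rfl, h⟩
    · rintro ⟨x', h, h'⟩; cases h; exact h'

theorem mem_edg_inr (m : Fin q → Fin 5 → Bool) (x : Fin q) (z : Fin 5 ⊕ Fin q) :
    s(Sum.inr x, z) ∈ edg m ↔ ∃ a, z = Sum.inl a ∧ m x a = true := by
  rcases z with a | z
  · rw [Sym2.eq_swap, mem_edg]
    constructor
    · intro h; exact ⟨a, rfl, h⟩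
    · rintro ⟨x', h, h'⟩; cases h; exact h'
  · constructor
    · intro h
      unfold edg at h
      simp [Sym2.eq_iff] at h
    · rintro ⟨x, h, -⟩; cases h

/-- delete the edge between `a` and `x` -/
def del (m : Fin q → Fin 5 → Bool) (x : Fin q) (a : Fin 5) : Fin q → Fin 5 → Bool :=
  Function.update m x (Function.update (m x) a false)

theorem del_apply (m : Fin q → Fin 5 → Bool) (x y : Fin q) (a b : Fin 5) :
    del m x a y b = true ↔ m y b = true ∧ ¬ (y = x ∧ b = a) := by
  unfold del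
  by_cases h : y = x
  · subst h
    by_cases h' : b = a
    · subst h'; simp
    · simp [h']
  · simp [h]

theorem edg_erase (m : Fin q → Fin 5 → Bool) (x : Fin q) (a : Fin 5) :
    (edg m).erase s(Sum.inl a, Sum.inr x) = edg (del m x a) := by
  ext e
  induction e using Sym2.ind with
  | _ u v =>
    rcases u with u | u
    · rcases v with v | v
      · simp only [mem_erase, mem_edg_inl]
        constructor
        · rintro ⟨_, y, h, _⟩; cases h
        · rintro ⟨y, h, _⟩; cases h
      · rw [mem_erase, mem_edg, mem_edg, del_apply]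
        simp only [ne_eq, Sym2.eq_iff, Sum.inl.injEq, Sum.inr.injEq, reduceCtorEq, and_false,
          or_false, false_and]
        tauto
    · rcases v with v | v
      · rw [show s(Sum.inr u, Sum.inl v) = s(Sum.inl v, Sum.inr u) from Sym2.eq_swap,
          mem_erase, mem_edg, mem_edg, del_apply]
        simp only [ne_eq, Sym2.eq_iff, Sum.inl.injEq, Sum.inr.injEq, reduceCtorEq, and_false,
          or_false, false_and]
        tauto
      · simp only [mem_erase, mem_edg_inr]
        constructor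
        · rintro ⟨_, y, h, _⟩; cases h
        · rintro ⟨y, h, _⟩; cases h

theorem edg_erase' (m : Fin q → Fin 5 → Bool) (x : Fin q) (a : Fin 5) :
    (edg m).erase s(Sum.inr x, Sum.inl a) = edg (del m x a) := by
  rw [Sym2.eq_swap]; exact edg_erase m x a

/-- half of a round: P1 in the big part, P2 in the big part, P1 to move -/
theorem half (m : Fin q → Fin 5 → Bool) (x y : Fin q)
    (h : ∀ w, m x w = true → ∃ w', del m x w y w' = true ∧
      ¬ MoverWins (edg (del (del m x w) y w')) (Sum.inl w) (Sum.inl w')) :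
    ¬ MoverWins (edg m) (Sum.inr x) (Sum.inr y) := by
  rw [moverWins_iff]
  rintro ⟨z, hz, hn⟩
  obtain ⟨w, rfl, hw⟩ := (mem_edg_inr m x z).1 hz
  apply hn
  obtain ⟨w', hw', hg⟩ := h w hw
  rw [moverWins_iff]
  refine ⟨Sum.inl w', ?_, ?_⟩
  · rw [edg_erase', mem_edg_inr]
    exact ⟨w', rfl, hw'⟩
  · rw [edg_erase', edg_erase']
    exact hg

/-- a full round -/
theorem round (m : Fin q → Fin 5 → Bool) (a b : Fin 5)
    (h : ∀ x, m x a = true → ∃ y, del m x a y b = true ∧
      ∀ w, del (del m x a) y b x w = true → ∃ w', del (del (del m x a) y b) x w y w' = true ∧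
        ¬ MoverWins (edg (del (del (del (del m x a) y b) x w) y w')) (Sum.inl w) (Sum.inl w')) :
    ¬ MoverWins (edg m) (Sum.inl a) (Sum.inl b) := by
  rw [moverWins_iff]
  rintro ⟨z, hz, hn⟩
  obtain ⟨x, rfl, hx⟩ := (mem_edg_inl m a z).1 hz
  apply hn
  obtain ⟨y, hy, hg⟩ := h x hx
  rw [moverWins_iff]
  refine ⟨Sum.inr y, ?_, ?_⟩
  · rw [edg_erase, mem_edg]
    exact hy
  · rw [edg_erase, edg_erase]
    exact half _ x y hg

/-- number of a mask -/
def cd (g : Fin 5 → Bool) : ℕ :=
  (g 0).toNat + 2 * (g 1).toNat + 4 * (g 2).toNat + 8 * (g 3).toNat + 16 * (g 4).toNat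

/-- bit test, written for fast evaluation -/
def tb (m v : ℕ) : Bool := Nat.beq (Nat.land (Nat.shiftRight m v) 1) 1

theorem tb_cd : ∀ (g : Fin 5 → Bool) (v : Fin 5), tb (cd g) v.val = g v := by decide

theorem cd_upd : ∀ (g : Fin 5 → Bool) (v : Fin 5), g v = true →
    cd (Function.update g v false) = cd g - 2 ^ v.val := by decide

/-- the multiset of masks in labels -/
def MS (m : Fin q → Fin 5 → Bool) (ρ : Equiv.Perm (Fin 5)) : Multiset ℕ :=
  (univ : Finset (Fin q)).val.map (fun x => cd (m x ∘ ρ))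

theorem MS_del (m : Fin q → Fin 5 → Bool) (ρ : Equiv.Perm (Fin 5)) (x : Fin q) (a : Fin 5)
    (h : m x (ρ a) = true) :
    MS (del m x (ρ a)) ρ = (cd (m x ∘ ρ) - 2 ^ a.val) ::ₘ (MS m ρ).erase (cd (m x ∘ ρ)) := by
  unfold MS
  have hx : x ∈ (univ : Finset (Fin q)).val := by simp
  obtain ⟨t, ht⟩ := Multiset.exists_cons_of_mem hx
  have hnd : ((univ : Finset (Fin q)).val).Nodup := univ.nodup
  rw [ht] at hnd ⊢
  have hxt : x ∉ t := (Multiset.nodup_cons.1 hnd).1
  rw [Multiset.map_cons, Multiset.map_cons, Multiset.erase_cons_head]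
  congr 1
  · rw [← cd_upd (m x ∘ ρ) a h]
    congr 1
    funext u
    unfold del
    simp only [Function.comp, Function.update_self]
    by_cases hu : u = a
    · subst hu; simp
    · have : ρ u ≠ ρ a := fun h => hu (ρ.injective h)
      simp [hu, this]
  · apply Multiset.map_congr rfl
    intro y hy
    have hyx : y ≠ x := fun h => hxt (h ▸ hy)
    unfold del
    simp [hyx]

theorem card_del_le (m : Fin q → Fin 5 → Bool) (x : Fin q) (a : Fin 5) :
    (edg (del m x a)).card ≤ (edg m).card := by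
  rw [← edg_erase]
  exact Finset.card_erase_le

theorem card_del_lt (m : Fin q → Fin 5 → Bool) (x : Fin q) (a : Fin 5) (h : m x a = true) :
    (edg (del m x a)).card < (edg m).card := by
  rw [← edg_erase]
  exact Finset.card_erase_lt_of_mem ((mem_edg m a x).2 h)

/-- P2 (at label `b`) wins with P1 (at label `a`) to move, whatever the labelling, when at most
`n` edges are left -/
def GoodX (q n : ℕ) (a b : Fin 5) (X : Multiset ℕ) : Prop :=
  ∀ (m : Fin q → Fin 5 → Bool) (ρ : Equiv.Perm (Fin 5)), MS m ρ = X → (edg m).card ≤ n →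
    ¬ MoverWins (edg m) (Sum.inl (ρ a)) (Sum.inl (ρ b))

theorem goodX_zero (q : ℕ) (a b : Fin 5) (X : Multiset ℕ) : GoodX q 0 a b X := by
  intro m ρ _ hc h
  rw [moverWins_iff] at h
  obtain ⟨w, hw, -⟩ := h
  have : edg m = ∅ := Finset.card_eq_zero.1 (Nat.le_zero.1 hc)
  rw [this] at hw
  simp at hw

theorem relabel (q n : ℕ) (a b : Fin 5) (X : Multiset ℕ) (τ : Equiv.Perm (Fin 5)) (φ : ℕ → ℕ)
    (hφ : ∀ g : Fin 5 → Bool, φ (cd g) = cd (g ∘ τ.symm))
    (h : GoodX q n (τ a) (τ b) (X.map φ)) : GoodX q n a b X := by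
  intro m ρ hX hc
  have := h m (τ.symm.trans ρ) (by
    rw [← hX]
    unfold MS
    rw [Multiset.map_map]
    apply Multiset.map_congr rfl
    intro x _
    simp only [Function.comp]
    rw [hφ]
    rfl) hc
  simpa using this

theorem step (q n : ℕ) (a b : Fin 5) (X : Multiset ℕ)
    (h : ∀ e ∈ X, tb e a.val = true →
      (b ≠ a ∧ tb e b.val = true ∧ ∀ w : Fin 5, w ≠ a → w ≠ b → tb e w.val = true →
        ∃ w' : Fin 5, w' ≠ a ∧ w' ≠ b ∧ w' ≠ w ∧ tb e w'.val = true ∧
          GoodX q n w w' ((e - 2 ^ a.val - 2 ^ b.val - 2 ^ w.val - 2 ^ w'.val) ::ₘ X.erase e)) ∨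
      (∃ t ∈ X.erase e, tb t b.val = true ∧ ∀ w : Fin 5, w ≠ a → tb e w.val = true →
        ∃ w' : Fin 5, w' ≠ b ∧ tb t w'.val = true ∧
          GoodX q n w w' ((t - 2 ^ b.val - 2 ^ w'.val) ::ₘ (e - 2 ^ a.val - 2 ^ w.val) ::ₘ
            (X.erase e).erase t))) :
    GoodX q (n + 1) a b X := by
  intro m ρ hX hc
  apply round
  intro x hx
  have heX : cd (m x ∘ ρ) ∈ X := by
    rw [← hX]; unfold MS
    exact Multiset.mem_map_of_mem _ (by simp)
  have hba : tb (cd (m x ∘ ρ)) a.val = true := by rw [tb_cd]; exact hx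
  rcases h _ heX hba with ⟨hab, hb, hw⟩ | ⟨t, ht, htb, hw⟩
  · refine ⟨x, ?_, ?_⟩
    · rw [del_apply]
      refine ⟨?_, ?_⟩
      · rw [tb_cd] at hb; exact hb
      · rintro ⟨-, h'⟩; exact hab (ρ.injective h')
    · intro w hw1
      rw [del_apply, del_apply] at hw1
      obtain ⟨⟨hw2, hw3⟩, hw4⟩ := hw1
      obtain ⟨w, rfl⟩ := ρ.surjective w
      have e1 : w ≠ a := fun h => hw3 ⟨rfl, by rw [h]⟩
      have e2 : w ≠ b := fun h => hw4 ⟨rfl, by rw [h]⟩
      obtain ⟨w', f1, f2, f3, f4, f5⟩ := hw w e1 e2 (by rw [tb_cd]; exact hw2)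
      rw [tb_cd] at f4 hb
      have f4' : m x (ρ w') = true := f4
      have hb' : m x (ρ b) = true := hb
      have g1 : del m x (ρ a) x (ρ b) = true := by
        rw [del_apply]; exact ⟨hb', fun h => hab (ρ.injective h.2)⟩
      have g2 : del (del m x (ρ a)) x (ρ b) x (ρ w) = true := by
        rw [del_apply, del_apply]; exact ⟨⟨hw2, hw3⟩, hw4⟩
      have g3 : del (del (del m x (ρ a)) x (ρ b)) x (ρ w) x (ρ w') = true := by
        rw [del_apply, del_apply, del_apply]
        exact ⟨⟨⟨f4', fun h => f1 (ρ.injective h.2)⟩, fun h => f2 (ρ.injective h.2)⟩,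
          fun h => f3 (ρ.injective h.2)⟩
      refine ⟨ρ w', g3, ?_⟩
      refine f5 _ ρ ?_ ?_
      rotate_left
      · have k1 := card_del_lt m x (ρ a) hx
        have k2 := card_del_le (del m x (ρ a)) x (ρ b)
        have k3 := card_del_le (del (del m x (ρ a)) x (ρ b)) x (ρ w)
        have k4 := card_del_le (del (del (del m x (ρ a)) x (ρ b)) x (ρ w)) x (ρ w')
        omega
      have c1 : cd (del m x (ρ a) x ∘ ρ) = cd (m x ∘ ρ) - 2 ^ a.val := by
        rw [← cd_upd (m x ∘ ρ) a hx]
        congr 1; funext u; unfold del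
        by_cases hu : u = a
        · subst hu; simp
        · have : ρ u ≠ ρ a := fun h => hu (ρ.injective h)
          simp [hu, this]
      have c2 : cd (del (del m x (ρ a)) x (ρ b) x ∘ ρ) = cd (m x ∘ ρ) - 2 ^ a.val - 2 ^ b.val := by
        rw [← c1, ← cd_upd (del m x (ρ a) x ∘ ρ) b g1]
        congr 1; funext u; conv_lhs => unfold del
        by_cases hu : u = b
        · subst hu; simp
        · have : ρ u ≠ ρ b := fun h => hu (ρ.injective h)
          simp [hu, this, del]
      have c3 : cd (del (del (del m x (ρ a)) x (ρ b)) x (ρ w) x ∘ ρ)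
          = cd (m x ∘ ρ) - 2 ^ a.val - 2 ^ b.val - 2 ^ w.val := by
        rw [← c2, ← cd_upd (del (del m x (ρ a)) x (ρ b) x ∘ ρ) w g2]
        congr 1; funext u; conv_lhs => unfold del
        by_cases hu : u = w
        · subst hu; simp
        · have : ρ u ≠ ρ w := fun h => hu (ρ.injective h)
          simp [hu, this, del]
      rw [MS_del _ ρ x w' g3, c3, MS_del _ ρ x w g2, c2, MS_del _ ρ x b g1, c1, MS_del _ ρ x a hx,
        hX]
      simp only [Multiset.erase_cons_head]
  · have : ∃ y, y ≠ x ∧ cd (m y ∘ ρ) = t := by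
      rw [← hX] at ht
      unfold MS at ht
      have hx' : x ∈ (univ : Finset (Fin q)).val := by simp
      obtain ⟨s, hs⟩ := Multiset.exists_cons_of_mem hx'
      have hnd : ((univ : Finset (Fin q)).val).Nodup := univ.nodup
      rw [hs] at hnd ht
      have hxt : x ∉ s := (Multiset.nodup_cons.1 hnd).1
      rw [Multiset.map_cons, Multiset.erase_cons_head, Multiset.mem_map] at ht
      obtain ⟨y, hy, hyt⟩ := ht
      exact ⟨y, fun h => hxt (h ▸ hy), hyt⟩
    obtain ⟨y, hyx, hyt⟩ := this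
    have hb' : m y (ρ b) = true := by rw [← hyt, tb_cd] at htb; exact htb
    refine ⟨y, ?_, ?_⟩
    · rw [del_apply]
      exact ⟨hb', fun h => hyx h.1⟩
    · intro w hw1
      rw [del_apply, del_apply] at hw1
      obtain ⟨⟨hw2, hw3⟩, hw4⟩ := hw1
      obtain ⟨w, rfl⟩ := ρ.surjective w
      have e1 : w ≠ a := fun h => hw3 ⟨rfl, by rw [h]⟩
      obtain ⟨w', f1, f2, f3⟩ := hw w e1 (by rw [tb_cd]; exact hw2)
      rw [← hyt, tb_cd] at f2
      have f2' : m y (ρ w') = true := f2
      have g1 : del m x (ρ a) y (ρ b) = true := by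
        rw [del_apply]; exact ⟨hb', fun h => hyx h.1⟩
      have g2 : del (del m x (ρ a)) y (ρ b) x (ρ w) = true := by
        rw [del_apply, del_apply]; exact ⟨⟨hw2, hw3⟩, hw4⟩
      have g3 : del (del (del m x (ρ a)) y (ρ b)) x (ρ w) y (ρ w') = true := by
        rw [del_apply, del_apply, del_apply]
        exact ⟨⟨⟨f2', fun h => hyx h.1⟩, fun h => f1 (ρ.injective h.2)⟩, fun h => hyx h.1⟩
      refine ⟨ρ w', g3, ?_⟩
      refine f3 _ ρ ?_ ?_
      rotate_left
      · have k1 := card_del_lt m x (ρ a) hx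
        have k2 := card_del_le (del m x (ρ a)) y (ρ b)
        have k3 := card_del_le (del (del m x (ρ a)) y (ρ b)) x (ρ w)
        have k4 := card_del_le (del (del (del m x (ρ a)) y (ρ b)) x (ρ w)) y (ρ w')
        omega
      have c1 : cd (del m x (ρ a) y ∘ ρ) = t := by
        rw [← hyt]; unfold del; simp [hyx]
      have c2 : cd (del (del m x (ρ a)) y (ρ b) x ∘ ρ) = cd (m x ∘ ρ) - 2 ^ a.val := by
        rw [← cd_upd (m x ∘ ρ) a hx]
        congr 1; funext u; unfold del
        by_cases hu : u = a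
        · subst hu; simp [Ne.symm hyx]
        · have : ρ u ≠ ρ a := fun h => hu (ρ.injective h)
          simp [hu, this, Ne.symm hyx]
      have c3 : cd (del (del (del m x (ρ a)) y (ρ b)) x (ρ w) y ∘ ρ) = t - 2 ^ b.val := by
        rw [← hyt, ← cd_upd (m y ∘ ρ) b hb']
        congr 1; funext u; unfold del
        by_cases hu : u = b
        · subst hu; simp [hyx]
        · have : ρ u ≠ ρ b := fun h => hu (ρ.injective h)
          simp [hu, this, hyx]
      rw [MS_del _ ρ y w' g3, c3, MS_del _ ρ x w g2, c2, MS_del _ ρ y b g1, c1, MS_del _ ρ x a hx,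
        hX]
      rw [Multiset.erase_cons_tail_of_mem ht]
      have k1 : ((t - 2 ^ b.val) ::ₘ (cd (m x ∘ ρ) - 2 ^ a.val) ::ₘ
          (X.erase (cd (m x ∘ ρ))).erase t).erase (cd (m x ∘ ρ) - 2 ^ a.val)
          = (t - 2 ^ b.val) ::ₘ (X.erase (cd (m x ∘ ρ))).erase t := by
        rw [Multiset.erase_cons_tail_of_mem (Multiset.mem_cons_self _ _),
          Multiset.erase_cons_head]
      rw [k1]
      rw [Multiset.erase_cons_tail_of_mem (Multiset.mem_cons_self _ _), Multiset.erase_cons_head]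

end TrailT
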