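import Mathlib

/-!
The game Trail Trap on a finite graph.

A position in the course of play is a finite set `E` of untraversed edges, the vertex `u` carrying
the token of the player to move and the vertex `v` carrying the token of the opponent.
-/

namespace TrailT

/-- `MoverWins E u v`: the player to move, whose token is at `u` while the token of the opponent is
at `v`, has a winning strategy when `E` is the set of edges not traversed so far. The player moves
the token from `u` to some `w` along an untraversed edge; then that edge is traversed and the
opponent is to move. A player with no move loses. -/
def MoverWins {V : Type*} [DecidableEq V] (E : Finset (Sym2 V)) (u v : V) : Prop :=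
  ∃ w, ∃ _h : s(u, w) ∈ E, ¬ MoverWins (E.erase s(u, w)) v w
termination_by E.card
decreasing_by exact Finset.card_erase_lt_of_mem _h

open Classical in
/-- the edges of a finite graph -/
noncomputable def edges {V : Type*} [Fintype V] (G : SimpleGraph V) : Finset (Sym2 V) :=
  Finset.univ.filter (fun e => e ∈ G.edgeSet)

/-- `P2Win G`: the second player wins Trail Trap on `G`. For every opening move of P1 (from any
vertex `u` along an edge to `w`) P2 has an opening move (from any vertex `v` along another edge
to `z`) after which P1, to move from `w` while the token of P2 is at `z`, has no winning
strategy. -/
def P2Win {V : Type*} [Fintype V] [DecidableEq V] (G : SimpleGraph V) : Prop :=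
  ∀ u w, G.Adj u w → ∃ v z, G.Adj v z ∧ s(v, z) ≠ s(u, w) ∧
    ¬ MoverWins (((edges G).erase s(u, w)).erase s(v, z)) w z

end TrailT
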