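import Pool.Agent.Lib.TrailT.Sound2
import Pool.Agent.Lib.TrailT.Data0
import Pool.Agent.Lib.TrailT.Data1
import Pool.Agent.Lib.TrailT.Data2
import Pool.Agent.Lib.TrailT.Data3
import Pool.Agent.Lib.TrailT.Data4
import Pool.Agent.Lib.TrailT.Data5

/-! Trail Trap on `K_{5,q}`. -/

namespace TrailT

open Finset

theorem all_chk : ∀ j < 3000, ∃ c, chk HT 3000 (hdr HT j) c = true := by
  intro j hj
  have l0 : cert0.length = 500 := by decide +kernel
  have l1 : cert1.length = 500 := by decide +kernel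
  have l2 : cert2.length = 500 := by decide +kernel
  have l3 : cert3.length = 500 := by decide +kernel
  have l4 : cert4.length = 500 := by decide +kernel
  have l5 : cert5.length = 500 := by decide +kernel
  rcases lt_or_ge j 500 with h | h
  · exact chkAll_sound chk0 j (by omega) (by rw [l0]; omega)
  rcases lt_or_ge j 1000 with h | h
  · exact chkAll_sound chk1 j (by omega) (by rw [l1]; omega)
  rcases lt_or_ge j 1500 with h | h
  · exact chkAll_sound chk2 j (by omega) (by rw [l2]; omega)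
  rcases lt_or_ge j 2000 with h | h
  · exact chkAll_sound chk3 j (by omega) (by rw [l3]; omega)
  rcases lt_or_ge j 2500 with h | h
  · exact chkAll_sound chk4 j (by omega) (by rw [l4]; omega)
  · exact chkAll_sound chk5 j (by omega) (by rw [l5]; omega)

theorem cl_all (q n j : ℕ) (hj : j < 3000) : Cl q n (hdr HT j) :=
  table_sound q all_chk n j hj

/-- the full set of edges -/
def fullM (q : ℕ) : Fin q → Fin 5 → Bool := fun _ _ => true

theorem adj_iff (q : ℕ) (u v : Fin 5 ⊕ Fin q) :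
    (completeBipartiteGraph (Fin 5) (Fin q)).Adj u v ↔ s(u, v) ∈ edg (fullM q) := by
  rcases u with u | u
  · rw [mem_edg_inl]
    rcases v with v | v
    · simp [completeBipartiteGraph]
    · simp [completeBipartiteGraph, fullM]
  · rw [mem_edg_inr]
    rcases v with v | v
    · simp [completeBipartiteGraph, fullM]
    · simp [completeBipartiteGraph]

theorem edge_full (q : ℕ) : edges (completeBipartiteGraph (Fin 5) (Fin q)) = edg (fullM q) := by
  classical
  ext e
  induction e using Sym2.ind with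
  | _ u v =>
    unfold edges
    rw [mem_filter, SimpleGraph.mem_edgeSet, adj_iff]
    simp

theorem MS_full (q : ℕ) (ρ : Equiv.Perm (Fin 5)) : MS (fullM q) ρ = Multiset.replicate q 31 := by
  unfold MS
  have : ∀ x : Fin q, cd (fullM q x ∘ ρ) = 31 := by
    intro x
    rfl
  simp only [this]
  rw [Multiset.map_const']
  simp

theorem caseB (q : ℕ) (hq : 13 ≤ q) (ho : q % 2 = 1) (x y : Fin q) (hxy : y ≠ x)
    (ρ : Equiv.Perm (Fin 5)) :
    ¬ MoverWins (edg (del (del (fullM q) x (ρ 0)) y (ρ 1))) (Sum.inl (ρ 0)) (Sum.inl (ρ 1)) := by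
  have h := cl_all q (edg (del (del (fullM q) x (ρ 0)) y (ρ 1))).card 0 (by norm_num)
  have hb : bF (hdr HT 0) = 1 := by decide +kernel
  have hD : unD 4 (Nat.shiftRight (hdr HT 0) 25) = [29, 30] := by decide +kernel
  have hf : Nat.land (Nat.shiftRight (hdr HT 0) 1) 15 = 11 := by decide +kernel
  have hL : ∀ v < 5, lv (Nat.shiftRight (hdr HT 0) 5) v = 0 := by decide +kernel
  unfold Cl at h
  rw [hb, hD, hf] at h
  refine h _ ?_ _ ρ rfl le_rfl
  have hx : fullM q x (ρ 0) = true := rfl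
  have hy : del (fullM q) x (ρ 0) y (ρ 1) = true := by
    rw [del_apply]; exact ⟨rfl, fun h => hxy h.1⟩
  have hcy : cd (del (fullM q) x (ρ 0) y ∘ ρ) = 31 := by
    unfold del
    rw [Function.update_of_ne hxy]
    rfl
  have hcx : cd (fullM q x ∘ ρ) = 31 := rfl
  rw [MS_del _ ρ y 1 hy, hcy, MS_del _ ρ x 0 hx, hcx, MS_full]
  obtain ⟨r, rfl⟩ : ∃ r, q = r + 2 := ⟨q - 2, by omega⟩
  rw [Multiset.replicate_succ, Multiset.erase_cons_head, Multiset.replicate_succ,
    Multiset.erase_cons_tail_of_mem (Multiset.mem_cons_self _ _), Multiset.erase_cons_head]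
  refine ⟨0, r, ?_, ?_, ?_, by omega, by omega⟩
  · rfl
  · intro s hs; simp at hs
  · intro v hv; rw [hL v hv]; exact Nat.zero_le _

theorem caseA (q : ℕ) (hq : 13 ≤ q) (ho : q % 2 = 1) (x : Fin q) (ρ : Equiv.Perm (Fin 5)) :
    ¬ MoverWins (edg (del (del (del (del (fullM q) x (ρ 2)) x (ρ 3)) x (ρ 0)) x (ρ 1)))
      (Sum.inl (ρ 0)) (Sum.inl (ρ 1)) := by
  have h := cl_all q
    (edg (del (del (del (del (fullM q) x (ρ 2)) x (ρ 3)) x (ρ 0)) x (ρ 1))).card 2992 (by norm_num)
  have hb : bF (hdr HT 2992) = 1 := by decide +kernel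
  have hD : unD 4 (Nat.shiftRight (hdr HT 2992) 25) = [] := by decide +kernel
  have hf : Nat.land (Nat.shiftRight (hdr HT 2992) 1) 15 = 4 := by decide +kernel
  have hL : ∀ v < 5, lv (Nat.shiftRight (hdr HT 2992) 5) v = if v = 4 then 1 else 0 := by
    decide +kernel
  unfold Cl at h
  rw [hb, hD, hf] at h
  refine h _ ?_ _ ρ rfl le_rfl
  have ne : ∀ {u v : Fin 5}, u ≠ v → ρ u ≠ ρ v := fun h h' => h (ρ.injective h')
  have h1 : fullM q x (ρ 2) = true := rfl
  have h2 : del (fullM q) x (ρ 2) x (ρ 3) = true := by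
    rw [del_apply]; exact ⟨rfl, fun h => ne (by decide) h.2⟩
  have h3 : del (del (fullM q) x (ρ 2)) x (ρ 3) x (ρ 0) = true := by
    rw [del_apply, del_apply]
    exact ⟨⟨rfl, fun h => ne (by decide) h.2⟩, fun h => ne (by decide) h.2⟩
  have h4 : del (del (del (fullM q) x (ρ 2)) x (ρ 3)) x (ρ 0) x (ρ 1) = true := by
    rw [del_apply, del_apply, del_apply]
    exact ⟨⟨⟨rfl, fun h => ne (by decide) h.2⟩, fun h => ne (by decide) h.2⟩,
      fun h => ne (by decide) h.2⟩
  have c1 : cd (fullM q x ∘ ρ) = 31 := rfl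
  have key : ∀ (m : Fin q → Fin 5 → Bool) (v : Fin 5), m x (ρ v) = true →
      cd (del m x (ρ v) x ∘ ρ) = cd (m x ∘ ρ) - 2 ^ v.val := by
    intro m v hv
    rw [← cd_upd (m x ∘ ρ) v hv]
    congr 1; funext u; unfold del
    by_cases hu : u = v
    · subst hu; simp
    · have : ρ u ≠ ρ v := ne hu
      simp [hu, this]
  rw [MS_del _ ρ x 1 h4, key _ 0 h3, key _ 3 h2, key _ 2 h1, MS_del _ ρ x 0 h3, key _ 3 h2,
    key _ 2 h1, MS_del _ ρ x 3 h2, key _ 2 h1, MS_del _ ρ x 2 h1, c1, MS_full]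
  simp only [Multiset.erase_cons_head]
  obtain ⟨r, rfl⟩ : ∃ r, q = r + 1 := ⟨q - 1, by omega⟩
  rw [Multiset.replicate_succ, Multiset.erase_cons_head]
  refine ⟨{16}, r, ?_, ?_, ?_, by omega, by omega⟩
  · rfl
  · intro s hs
    rw [Multiset.mem_singleton] at hs
    exact Or.inr ⟨4, by norm_num, hs⟩
  · intro v hv; rw [hL v hv]
    by_cases h5 : v = 4
    · subst h5; simp
    · rw [if_neg h5]; exact Nat.zero_le _

theorem main (q : ℕ) (hq : 13 ≤ q) (ho : q % 2 = 1) :
    P2Win (completeBipartiteGraph (Fin 5) (Fin q)) := by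
  intro u w huw
  rw [adj_iff] at huw
  rw [edge_full]
  suffices h : ∃ v z, s(v, z) ∈ (edg (fullM q)).erase s(u, w) ∧
      ¬ MoverWins (((edg (fullM q)).erase s(u, w)).erase s(v, z)) w z by
    obtain ⟨v, z, h1, h2⟩ := h
    rw [mem_erase] at h1
    exact ⟨v, z, (adj_iff q v z).2 h1.2, h1.1, h2⟩
  rcases u with a | x
  · obtain ⟨x, rfl, -⟩ := (mem_edg_inl _ _ _).1 huw
    -- P1 starts in the part of size five
    let ρ₀ : Equiv.Perm (Fin 5) := Equiv.swap 2 a
    have ha : ρ₀ 2 = a := Equiv.swap_apply_left 2 a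
    refine ⟨Sum.inl (ρ₀ 3), Sum.inr x, ?_, ?_⟩
    · rw [edg_erase, mem_edg, del_apply]
      refine ⟨rfl, fun h => ?_⟩
      rw [← ha] at h
      exact absurd (ρ₀.injective h.2) (by decide)
    · rw [edg_erase, edg_erase, ← ha]
      apply half
      intro w' hw'
      rw [del_apply, del_apply] at hw'
      obtain ⟨⟨-, n1⟩, n2⟩ := hw'
      obtain ⟨l, rfl⟩ := ρ₀.surjective w'
      have m1 : l ≠ 2 := fun h => n1 ⟨rfl, by rw [h]⟩
      have m2 : l ≠ 3 := fun h => n2 ⟨rfl, by rw [h]⟩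
      let ρ : Equiv.Perm (Fin 5) := (Equiv.swap 0 l).trans ρ₀
      have r0 : ρ 0 = ρ₀ l := by simp [ρ]
      have r2 : ρ 2 = ρ₀ 2 := by
        simp only [ρ, Equiv.trans_apply]
        rw [Equiv.swap_apply_of_ne_of_ne (by decide) (Ne.symm m1)]
      have r3 : ρ 3 = ρ₀ 3 := by
        simp only [ρ, Equiv.trans_apply]
        rw [Equiv.swap_apply_of_ne_of_ne (by decide) (Ne.symm m2)]
      have hA := caseA q hq ho x ρ
      rw [r0, r2, r3] at hA
      refine ⟨ρ 1, ?_, hA⟩
      rw [← r0, ← r2, ← r3, del_apply, del_apply, del_apply]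
      exact ⟨⟨⟨rfl, fun h => absurd (ρ.injective h.2) (by decide)⟩,
        fun h => absurd (ρ.injective h.2) (by decide)⟩,
        fun h => absurd (ρ.injective h.2) (by decide)⟩
  · obtain ⟨a, rfl, -⟩ := (mem_edg_inr _ _ _).1 huw
    let ρ : Equiv.Perm (Fin 5) := Equiv.swap 0 a
    have ha : ρ 0 = a := Equiv.swap_apply_left 0 a
    obtain ⟨y, hy⟩ : ∃ y : Fin q, y ≠ x := by
      have : Nontrivial (Fin q) := Fin.nontrivial_iff_two_le.2 (by omega)
      exact exists_ne x
    refine ⟨Sum.inr y, Sum.inl (ρ 1), ?_, ?_⟩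
    · rw [edg_erase', mem_edg_inr]
      refine ⟨ρ 1, rfl, ?_⟩
      rw [del_apply]
      exact ⟨rfl, fun h => hy h.1⟩
    · rw [edg_erase', edg_erase', ← ha]
      exact caseB q hq ho x y hy ρ

end TrailT
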