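import Pool.Agent.Lib.TrailT.Check

/-! Soundness of the checker. -/

namespace TrailT

/-! ### Facts on permutations, checked by evaluation -/

def permChk (k : ℕ) : Bool :=
  (List.range 5).all (fun v => Nat.blt (pv k v) 5 && Nat.beq (pm k (2 ^ v)) (2 ^ pv k v)) &&
  (List.range 5).all (fun v => (List.range 5).all (fun u => Nat.beq u v || (not (Nat.beq (pv k u) (pv k v))))) &&
  (List.range 32).all (fun m => Nat.blt (pm k m) 32 &&
    (List.range 5).all (fun v => (tb (pm k m) (pv k v)) == (tb m v))) &&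
  Nat.beq (pm k 0) 0 && Nat.beq (pm k 31) 31

theorem permChk_all : (List.range 120).all permChk = true := by decide +kernel

theorem cd_lt : ∀ g : Fin 5 → Bool, cd g < 32 := by decide

theorem bits_ext : (List.range 32).all (fun m => (List.range 32).all (fun m' =>
    (not ((List.range 5).all (fun v => tb m v == tb m' v))) || Nat.beq m m')) = true := by
  decide +kernel

theorem eq_of_bits {m m' : ℕ} (hm : m < 32) (hm' : m' < 32)
    (h : ∀ v : Fin 5, tb m v.val = tb m' v.val) : m = m' := by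
  have h1 := bits_ext
  rw [List.all_eq_true] at h1
  have h2 := h1 m (List.mem_range.2 hm)
  rw [List.all_eq_true] at h2
  have h3 := h2 m' (List.mem_range.2 hm')
  have h4 : ((List.range 5).all (fun v => tb m v == tb m' v)) = true := by
    rw [List.all_eq_true]
    intro v hv
    rw [h ⟨v, List.mem_range.1 hv⟩]
    simp
  rw [h4] at h3
  simpa using h3

theorem perm_facts {k : ℕ} (hk : k < 120) : ∃ τ : Equiv.Perm (Fin 5),
    (∀ v : Fin 5, (τ v).val = pv k v.val) ∧
    (∀ g : Fin 5 → Bool, pm k (cd g) = cd (g ∘ τ.symm)) ∧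
    (∀ v < 5, pm k (2 ^ v) = 2 ^ pv k v) ∧ pm k 0 = 0 ∧ pm k 31 = 31 := by
  have h1 := permChk_all
  rw [List.all_eq_true] at h1
  have h2 := h1 k (List.mem_range.2 hk)
  unfold permChk at h2
  simp only [Bool.and_eq_true, List.all_eq_true, List.mem_range, Nat.blt_eq, Nat.beq_eq,
    Bool.or_eq_true, Bool.not_eq_true', beq_iff_eq] at h2
  obtain ⟨⟨⟨⟨a1, a2⟩, a3⟩, a4⟩, a5⟩ := h2
  have inj : Function.Injective (fun v : Fin 5 => (⟨pv k v.val, (a1 v.val v.2).1⟩ : Fin 5)) := by
    intro u v huv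
    simp only [Fin.mk.injEq] at huv
    rcases a2 v.val v.2 u.val u.2 with h | h
    · exact Fin.ext h
    · rw [huv] at h
      simp at h
  let τ : Equiv.Perm (Fin 5) := Equiv.ofBijective _ (Finite.injective_iff_bijective.1 inj)
  have hτ : ∀ v : Fin 5, (τ v).val = pv k v.val := fun v => rfl
  refine ⟨τ, hτ, ?_, fun v hv => (a1 v hv).2, a4, a5⟩
  intro g
  apply eq_of_bits (a3 _ (cd_lt g)).1 (cd_lt _)
  intro u
  obtain ⟨v, rfl⟩ := τ.surjective u
  rw [tb_cd, hτ, (a3 _ (cd_lt g)).2 v.val v.2, tb_cd]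
  simp

/-! ### The leftover vector -/

theorem lv_eq (L v : ℕ) : lv L v = L / 16 ^ v % 16 := by
  unfold lv
  change (L >>> (4 * v)) &&& 15 = _
  rw [Nat.shiftRight_eq_div_pow, pow_mul]
  exact Nat.and_two_pow_sub_one_eq_mod _ 4

theorem lv_add (L m : ℕ) (hL : ∀ v < 5, lv L v ≤ 13) (v : ℕ) (hv : v < 5) :
    lv (Nat.add L (sg m)) v ≤ lv L v + (if m = 2 ^ v then 1 else 0) := by
  have h0 := hL 0 (by norm_num)
  have h1 := hL 1 (by norm_num)
  have h2 := hL 2 (by norm_num)
  have h3 := hL 3 (by norm_num)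
  have h4 := hL 4 (by norm_num)
  simp only [lv_eq] at h0 h1 h2 h3 h4 ⊢
  change (L + sg m) / 16 ^ v % 16 ≤ _
  unfold sg
  have e : ∀ x y : ℕ, Nat.beq x y = decide (x = y) := fun x y => by
    rw [Bool.eq_iff_iff, Nat.beq_eq, decide_eq_true_iff]
  simp only [e, Bool.cond_decide]
  norm_num at h0 h1 h2 h3 h4
  by_cases c1 : m = 1
  · subst c1; interval_cases v <;> norm_num <;> omega
  · by_cases c2 : m = 2
    · subst c2; interval_cases v <;> norm_num <;> omega
    · by_cases c3 : m = 4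
      · subst c3; interval_cases v <;> norm_num <;> omega
      · by_cases c4 : m = 8
        · subst c4; interval_cases v <;> norm_num <;> omega
        · by_cases c5 : m = 16
          · subst c5; interval_cases v <;> norm_num <;> omega
          · simp [c1, c2, c3, c4, c5]

/-! ### Matching -/

/-- `X` consists of the live masks `D`, leftovers given at least by `L`, and at least `f` full
masks, of the parity of `f` -/
def Mt (D : List ℕ) (L f : ℕ) (X : Multiset ℕ) : Prop :=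
  ∃ (R : Multiset ℕ) (F : ℕ), X = (D : Multiset ℕ) + R + Multiset.replicate F 31 ∧
    (∀ r ∈ R, r = 0 ∨ ∃ v < 5, r = 2 ^ v) ∧ (∀ v < 5, lv L v ≤ R.count (2 ^ v)) ∧ f ≤ F ∧
    (F - f) % 2 = 0

theorem small_mask : ∀ m < 32, big m = false → m = 0 ∨ ∃ v < 5, m = 2 ^ v := by decide

theorem Mt_add {D : List ℕ} {L f : ℕ} {X : Multiset ℕ} (h : Mt D L f X)
    (hL : ∀ v < 5, lv L v ≤ 13) (m : ℕ) (hm : m < 32) :
    Mt (addD m D) (Nat.add L (sg m)) f (m ::ₘ X) := by
  obtain ⟨R, F, hX, hR, hc, hf, hp⟩ := h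
  unfold addD
  by_cases hb : big m = true
  · rw [hb, cond_true]
    refine ⟨R, F, ?_, hR, ?_, hf, hp⟩
    · rw [hX, ← Multiset.cons_coe, Multiset.cons_add, Multiset.cons_add]
    · intro v hv
      refine (lv_add L m hL v hv).trans ?_
      have : m ≠ 2 ^ v := by
        rintro rfl
        interval_cases v <;> revert hb <;> decide
      rw [if_neg this]
      exact hc v hv
  · have hb' : big m = false := by simpa using hb
    rw [hb', cond_false]
    refine ⟨m ::ₘ R, F, ?_, ?_, ?_, hf, hp⟩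
    · rw [hX, Multiset.add_cons, Multiset.cons_add]
    · intro r hr
      rcases Multiset.mem_cons.1 hr with rfl | hr
      · exact small_mask r hm hb'
      · exact hR r hr
    · intro v hv
      refine (lv_add L m hL v hv).trans ?_
      rw [Multiset.count_cons]
      have := hc v hv
      by_cases h : m = 2 ^ v
      · rw [if_pos h, if_pos h.symm]; omega
      · rw [if_neg h, if_neg (fun h' => h h'.symm)]; omega

theorem ins_perm (x : ℕ) (l : List ℕ) : (ins x l).Perm (x :: l) := by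
  induction l with
  | nil => exact List.Perm.refl _
  | cons y ys ih =>
    unfold ins
    cases Nat.ble x y
    · simp only [cond_false]
      exact (List.Perm.cons y ih).trans (List.Perm.swap x y ys)
    · exact List.Perm.refl _

theorem srt_perm (l : List ℕ) : (srt l).Perm l := by
  induction l with
  | nil => exact List.Perm.refl _
  | cons x xs ih =>
    unfold srt
    exact (ins_perm x _).trans (List.Perm.cons x ih)

theorem lbeq_eq : ∀ l l' : List ℕ, lbeq l l' = true → l = l'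
  | [], [], _ => rfl
  | [], _ :: _, h => by simp [lbeq] at h
  | _ :: _, [], h => by simp [lbeq] at h
  | x :: xs, y :: ys, h => by
    simp only [lbeq, Bool.and_eq_true, Nat.beq_eq] at h
    rw [h.1, lbeq_eq xs ys h.2]

/-- label of P2 in an entry -/
def bF (h : ℕ) : Fin 5 := bif Nat.beq (Nat.land h 1) 0 then 0 else 1

theorem bF_val (h : ℕ) : (bF h).val = Nat.land h 1 := by
  unfold bF
  have h1 : Nat.land h 1 < 2 := by
    change h &&& 1 < 2
    rw [Nat.and_one_is_mod]; omega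
  generalize Nat.land h 1 = b at h1
  interval_cases b <;> rfl

/-- the claim made by the entry `h` -/
def Cl (q n h : ℕ) : Prop := ∀ X, Mt (unD 4 (Nat.shiftRight h 25)) (Nat.shiftRight h 5)
  (Nat.land (Nat.shiftRight h 1) 15) X → GoodX q n 0 (bF h) X

theorem covers_sound {q n h : ℕ} {w w' : Fin 5} {D : List ℕ} {L f k : ℕ} (hCl : Cl q n h)
    (hc : covers h w.val w'.val D L f k = true) (X : Multiset ℕ) (hX : Mt D L f X) :
    GoodX q n w w' X := by
  unfold covers at hc
  simp only [Bool.and_eq_true, Nat.blt_eq, Nat.beq_eq, Nat.ble_eq] at hc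
  obtain ⟨⟨⟨⟨⟨⟨⟨⟨⟨⟨hk, h1⟩, h2⟩, h3⟩, l0⟩, l1⟩, l2⟩, l3⟩, l4⟩, h4⟩, h5⟩ := hc
  obtain ⟨τ, t1, t2, t3, t4, t5⟩ := perm_facts hk
  apply relabel q n w w' X τ (pm k) t2
  have e1 : τ w = 0 := Fin.ext (by rw [t1, h1]; rfl)
  have e2 : τ w' = bF h := Fin.ext (by rw [t1, h2, bF_val])
  rw [e1, e2]
  apply hCl
  obtain ⟨R, F, hX, hR, hcnt, hf, hp⟩ := hX
  refine ⟨R.map (pm k), F, ?_, ?_, ?_, h4.trans hf, ?_⟩
  · rw [hX, Multiset.map_add, Multiset.map_add, Multiset.map_replicate, t5, Multiset.map_coe]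
    congr 2
    rw [← lbeq_eq _ _ h3]
    exact (Multiset.coe_eq_coe.2 (srt_perm _)).symm
  · intro r hr
    obtain ⟨r', hr', rfl⟩ := Multiset.mem_map.1 hr
    rcases hR r' hr' with rfl | ⟨v, hv, rfl⟩
    · left; exact t4
    · right
      refine ⟨pv k v, ?_, t3 v hv⟩
      have := t1 ⟨v, hv⟩
      rw [← this]
      exact (τ ⟨v, hv⟩).2
  · intro u hu
    obtain ⟨v, hv⟩ := τ.surjective ⟨u, hu⟩
    have hv' : pv k v.val = u := by rw [← t1, hv]
    have h6 : lv (Nat.shiftRight h 5) u ≤ lv L v.val := by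
      rw [← hv']
      obtain ⟨v, hv5⟩ := v
      interval_cases v
      · exact l0
      · exact l1
      · exact l2
      · exact l3
      · exact l4
    refine h6.trans ((hcnt v.val v.2).trans ?_)
    rw [← hv', ← t3 v.val v.2, Multiset.le_count_iff_replicate_le, ← Multiset.map_replicate]
    apply Multiset.map_le_map
    rw [← Multiset.le_count_iff_replicate_le]
  · have h7 : ((f - Nat.land (Nat.shiftRight h 1) 15) % 2 = 0) := by
      have : Nat.land (Nat.sub f (Nat.land (Nat.shiftRight h 1) 15)) 1 = 0 := h5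
      have h8 : Nat.land (Nat.sub f (Nat.land (Nat.shiftRight h 1) 15)) 1
        = (f - Nat.land (Nat.shiftRight h 1) 15) % 2 := by
        change (f - _) &&& 1 = _
        exact Nat.and_one_is_mod _
      rw [← h8]; exact this
    omega

theorem tgt_sound {q n H N : ℕ} (IH : ∀ j < N, Cl q n (hdr H j)) {x : ℕ} {w w' : Fin 5}
    {D : List ℕ} {L f : ℕ} (hw : Nat.land x 7 = w'.val)
    (h : tgt H N x w.val D L f = true) (X : Multiset ℕ) (hX : Mt D L f X) :
    GoodX q n w w' X := by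
  unfold tgt at h
  rw [Bool.and_eq_true, hw] at h
  have hj : Nat.land (Nat.shiftRight x 10) 4095 < N := by
    have := h.1
    rwa [Nat.blt_eq] at this
  exact covers_sound (IH _ hj) h.2 X hX

theorem sub2_lt {e : ℕ} (a b : ℕ) (h : e < 32) : e - a - b < 32 := by omega

theorem sub4_lt {e : ℕ} (a b c d : ℕ) (h : e < 32) : e - a - b - c - d < 32 := by omega

theorem same1_sound {q n H N : ℕ} (IH : ∀ j < N, Cl q n (hdr H j)) {e : ℕ} (he : e < 32)
    {D : List ℕ} {L f it : ℕ} (hL : ∀ v < 5, lv L v ≤ 13) (w : Fin 5)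
    (h : same1 H N e D L f it w.val = true) (Y : Multiset ℕ) (hY : Mt D L f Y) :
    ∃ w' : Fin 5, w' ≠ 0 ∧ w' ≠ 1 ∧ w' ≠ w ∧ tb e w'.val = true ∧
      GoodX q n w w' ((e - 2 ^ 0 - 2 ^ 1 - 2 ^ w.val - 2 ^ w'.val) ::ₘ Y) := by
  unfold same1 at h
  simp only [Bool.and_eq_true, Bool.not_eq_true', Nat.blt_eq, Nat.ble_eq] at h
  obtain ⟨⟨⟨⟨h1, h2⟩, h3⟩, h4⟩, h5⟩ := h
  generalize hg : Nat.land (Nat.shiftRight it (Nat.add 5 (Nat.mul 22 w.val))) 7 = w' at h1 h2 h3 h4 h5
  refine ⟨⟨w', h2⟩, ?_, ?_, ?_, h4, ?_⟩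
  · intro h; have := congrArg Fin.val h; simp at this; omega
  · intro h; have := congrArg Fin.val h; simp at this; omega
  · intro h
    have := congrArg Fin.val h
    simp only at this
    rw [this] at h3
    simp at h3
  · exact tgt_sound IH hg h5 _ (Mt_add hY hL _ (sub4_lt _ _ _ _ he))

theorem other1_sound {q n H N : ℕ} (IH : ∀ j < N, Cl q n (hdr H j)) {e t : ℕ} (he : e < 32)
    (ht : t < 32) (b : Fin 5)
    {D : List ℕ} {L f it : ℕ} (hL : ∀ v < 5, lv L v ≤ 7) (w : Fin 5)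
    (h : other1 H N e t b.val D L f it w.val = true) (Y : Multiset ℕ) (hY : Mt D L f Y) :
    ∃ w' : Fin 5, w' ≠ b ∧ tb t w'.val = true ∧
      GoodX q n w w' ((t - 2 ^ b.val - 2 ^ w'.val) ::ₘ (e - 2 ^ 0 - 2 ^ w.val) ::ₘ Y) := by
  unfold other1 at h
  simp only [Bool.and_eq_true, Bool.not_eq_true', Nat.blt_eq] at h
  obtain ⟨⟨⟨h2, h3⟩, h4⟩, h5⟩ := h
  generalize hg : Nat.land (Nat.shiftRight it (Nat.add 5 (Nat.mul 22 w.val))) 7 = w' at h2 h3 h4 h5
  refine ⟨⟨w', h2⟩, ?_, h4, ?_⟩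
  · intro h
    have := congrArg Fin.val h
    simp only at this
    rw [this] at h3
    simp at h3
  · have hY1 := Mt_add hY (fun v hv => (hL v hv).trans (by norm_num))
      (t - 2 ^ b.val - 2 ^ w') (sub2_lt _ _ ht)
    have hL1 : ∀ v < 5, lv (Nat.add L (sg (t - 2 ^ b.val - 2 ^ w'))) v ≤ 13 := by
      intro v hv
      refine (lv_add L _ (fun v hv => (hL v hv).trans (by norm_num)) v hv).trans ?_
      have := hL v hv
      split_ifs <;> omega
    have hY2 := Mt_add hY1 hL1 (e - 2 ^ 0 - 2 ^ w.val) (sub2_lt _ _ he)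
    have key := tgt_sound IH (w' := ⟨w', h2⟩) hg h5
      ((t - 2 ^ b.val - 2 ^ w') ::ₘ (e - 2 ^ 0 - 2 ^ w.val) ::ₘ Y)
    apply key
    rw [Multiset.cons_swap]
    have e1 : Nat.add L (Nat.add (sg (e - 1 - 2 ^ w.val)) (sg (t - 2 ^ b.val - 2 ^ w')))
        = Nat.add (Nat.add L (sg (t - 2 ^ b.val - 2 ^ w'))) (sg (e - 2 ^ 0 - 2 ^ w.val)) := by
      simp only [Nat.add_eq, pow_zero]; omega
    rw [e1]
    exact hY2

end TrailT
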