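import Pool.Agent.Lib.TrailT.Sound

/-! Soundness of the checker, second part. -/

namespace TrailT

theorem mem_sound {x : ℕ} : ∀ {l : List ℕ}, mem x l = true → x ∈ l
  | [], h => by simp [mem] at h
  | y :: ys, h => by
    simp only [mem, Bool.or_eq_true, Nat.beq_eq] at h
    rcases h with h | h
    · rw [h]; exact List.mem_cons_self
    · exact List.mem_cons_of_mem _ (mem_sound h)

theorem ers_eq (x : ℕ) : ∀ l : List ℕ, ers x l = l.erase x
  | [] => rfl
  | y :: ys => by
    unfold ers
    by_cases h : y = x
    · subst h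
      have : Nat.beq y y = true := by rw [Nat.beq_eq]
      rw [this, cond_true, List.erase_cons_head]
    · have : Nat.beq y x = false := by
        rw [Bool.eq_false_iff, ne_eq, Nat.beq_eq]; exact h
      rw [this, cond_false, List.erase_cons_tail (by simpa using h), ers_eq x ys]

theorem Mt_erase_D {D : List ℕ} {L f : ℕ} {X : Multiset ℕ} (h : Mt D L f X) {e : ℕ} (he : e ∈ D) :
    Mt (ers e D) L f (X.erase e) := by
  obtain ⟨R, F, hX, hR, hc, hf, hp⟩ := h
  refine ⟨R, F, ?_, hR, hc, hf, hp⟩
  rw [hX, add_assoc, Multiset.erase_add_left_pos _ (by simpa using he), ers_eq, add_assoc,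
    Multiset.coe_erase]

theorem Mt_erase_full {D : List ℕ} {L f : ℕ} {X : Multiset ℕ} (h : Mt D L f X) (h1 : 1 ≤ f) :
    31 ∈ X ∧ Mt D L (f - 1) (X.erase 31) := by
  obtain ⟨R, F, hX, hR, hc, hf, hp⟩ := h
  have hF : 31 ∈ Multiset.replicate F 31 := by
    rw [Multiset.mem_replicate]; exact ⟨by omega, rfl⟩
  refine ⟨?_, R, F - 1, ?_, hR, hc, by omega, by omega⟩
  · rw [hX]; exact Multiset.mem_add.2 (Or.inr hF)
  · rw [hX, Multiset.erase_add_right_pos _ hF]
    congr 1
    obtain ⟨G, rfl⟩ : ∃ G, F = G + 1 := ⟨F - 1, by omega⟩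
    rw [Multiset.replicate_succ, Multiset.erase_cons_head]
    rfl

theorem Mt_mem_lt {D : List ℕ} {L f : ℕ} {X : Multiset ℕ} (h : Mt D L f X)
    (hD : ∀ m ∈ D, m < 32) : ∀ m ∈ X, m < 32 := by
  obtain ⟨R, F, hX, hR, hc, hf, hp⟩ := h
  intro m hm
  rw [hX] at hm
  rcases Multiset.mem_add.1 hm with hm | hm
  · rcases Multiset.mem_add.1 hm with hm | hm
    · exact hD m (by simpa using hm)
    · rcases hR m hm with rfl | ⟨v, hv, rfl⟩
      · norm_num
      · interval_cases v <;> norm_num
  · rw [Multiset.mem_replicate] at hm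
    omega

/-- the reply of P2 to the entry of P1 (at label 0) into a vertex with mask `e` -/
def Reply (q n : ℕ) (b : Fin 5) (e : ℕ) (Y : Multiset ℕ) : Prop :=
  (b ≠ 0 ∧ tb e b.val = true ∧ ∀ w : Fin 5, w ≠ 0 → w ≠ b → tb e w.val = true →
    ∃ w' : Fin 5, w' ≠ 0 ∧ w' ≠ b ∧ w' ≠ w ∧ tb e w'.val = true ∧
      GoodX q n w w' ((e - 2 ^ (0 : Fin 5).val - 2 ^ b.val - 2 ^ w.val - 2 ^ w'.val) ::ₘ Y)) ∨
  (∃ t ∈ Y, tb t b.val = true ∧ ∀ w : Fin 5, w ≠ 0 → tb e w.val = true →
    ∃ w' : Fin 5, w' ≠ b ∧ tb t w'.val = true ∧
      GoodX q n w w' ((t - 2 ^ b.val - 2 ^ w'.val) ::ₘ (e - 2 ^ (0 : Fin 5).val - 2 ^ w.val) ::ₘ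
        Y.erase t))

theorem item_sound {q n H N : ℕ} (IH : ∀ j < N, Cl q n (hdr H j)) {e : ℕ} (he : e < 32)
    {D : List ℕ} {L f it : ℕ} (hD : ∀ m ∈ D, m < 32) (hL : ∀ v < 5, lv L v ≤ 7) (b : Fin 5)
    (hb : b = 0 ∨ b = 1)
    (h : item H N b.val e D L f it = true) (Y : Multiset ℕ) (hY : Mt D L f Y) :
    Reply q n b e Y := by
  have hL13 : ∀ v < 5, lv L v ≤ 13 := fun v hv => (hL v hv).trans (by norm_num)
  unfold item at h
  cases h0 : Nat.beq (Nat.land it 31) 0
  · rw [h0, cond_false] at h
    right
    generalize Nat.land it 31 = t at h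
    simp only [Bool.and_eq_true] at h
    obtain ⟨htb, h⟩ := h
    cases h31 : Nat.beq t 31
    · rw [h31, cond_false] at h
      simp only [Bool.and_eq_true, Bool.or_eq_true, Bool.not_eq_true'] at h
      obtain ⟨⟨⟨⟨hm, k1⟩, k2⟩, k3⟩, k4⟩ := h
      have htD := mem_sound hm
      have htY : t ∈ Y := by
        obtain ⟨R, F, hX, -⟩ := hY
        rw [hX]
        exact Multiset.mem_add.2 (Or.inl (Multiset.mem_add.2 (Or.inl (by simpa using htD))))
      refine ⟨t, htY, htb, ?_⟩
      intro w hw hew
      have hY' := Mt_erase_D hY htD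
      have key : other1 H N e t b.val (ers t D) L f it w.val = true := by
        obtain ⟨w, hw5⟩ := w
        interval_cases w
        · exact absurd rfl hw
        · exact (k1.resolve_left (by rw [hew]; simp))
        · exact (k2.resolve_left (by rw [hew]; simp))
        · exact (k3.resolve_left (by rw [hew]; simp))
        · exact (k4.resolve_left (by rw [hew]; simp))
      exact other1_sound IH he (hD t htD) b hL w key _ hY'
    · rw [h31, cond_true] at h
      have ht : t = 31 := by rwa [Nat.beq_eq] at h31
      subst ht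
      simp only [Bool.and_eq_true, Bool.or_eq_true, Bool.not_eq_true', Nat.ble_eq] at h
      obtain ⟨⟨⟨⟨hm, k1⟩, k2⟩, k3⟩, k4⟩ := h
      obtain ⟨htY, hY'⟩ := Mt_erase_full hY hm
      refine ⟨31, htY, htb, ?_⟩
      intro w hw hew
      have key : other1 H N e 31 b.val D L (f - 1) it w.val = true := by
        obtain ⟨w, hw5⟩ := w
        interval_cases w
        · exact absurd rfl hw
        · exact (k1.resolve_left (by rw [hew]; simp))
        · exact (k2.resolve_left (by rw [hew]; simp))
        · exact (k3.resolve_left (by rw [hew]; simp))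
        · exact (k4.resolve_left (by rw [hew]; simp))
      exact other1_sound IH he (by norm_num) b hL w key _ hY'
  · rw [h0, cond_true] at h
    left
    simp only [Bool.and_eq_true, Bool.or_eq_true, Bool.not_eq_true', Nat.beq_eq] at h
    obtain ⟨⟨⟨⟨hb1, k1⟩, k2⟩, k3⟩, k4⟩ := h
    have hb' : b = 1 := Fin.ext hb1
    subst hb'
    refine ⟨by decide, k1, ?_⟩
    intro w hw0 hw1 hew
    have key : same1 H N e D L f it w.val = true := by
      obtain ⟨w, hw5⟩ := w
      interval_cases w
      · exact absurd rfl hw0
      · exact absurd rfl hw1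
      · exact (k2.resolve_left (by rw [hew]; simp))
      · exact (k3.resolve_left (by rw [hew]; simp))
      · exact (k4.resolve_left (by rw [hew]; simp))
    exact same1_sound IH he hL13 w key Y hY

theorem items_sound {H N b : ℕ} {D : List ℕ} {L f : ℕ} : ∀ {es : List ℕ} {it : ℕ},
    items H N b D L f es it = true →
    (∀ e ∈ es, tb e 0 = true → ∃ it', item H N b e (ers e D) L f it' = true) ∧
    ∃ it', item H N b 31 D L ((bif Nat.beq f 0 then 2 else f) - 1) it' = true
  | [], it, h => ⟨fun e he => by simp at he, it, h⟩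
  | e :: es, it, h => by
    unfold items at h
    cases h0 : tb e 0
    · rw [h0, cond_false] at h
      obtain ⟨h1, h2⟩ := items_sound h
      refine ⟨?_, h2⟩
      intro e' he' ht
      rcases List.mem_cons.1 he' with rfl | he'
      · rw [h0] at ht; simp at ht
      · exact h1 e' he' ht
    · rw [h0, cond_true, Bool.and_eq_true] at h
      obtain ⟨h1, h2⟩ := items_sound h.2
      refine ⟨?_, h2⟩
      intro e' he' ht
      rcases List.mem_cons.1 he' with rfl | he'
      · exact ⟨it, h.1⟩
      · exact h1 e' he' ht

theorem okD_sound : ∀ {l : List ℕ}, okD l = true → ∀ m ∈ l, 3 ≤ m ∧ m ≤ 30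
  | [], _, m, hm => by simp at hm
  | x :: xs, h, m, hm => by
    simp only [okD, Bool.and_eq_true, Nat.ble_eq] at h
    rcases List.mem_cons.1 hm with rfl | hm
    · exact h.1
    · exact okD_sound h.2 m hm

theorem chk_sound {q n H N : ℕ} (IH : ∀ j < N, Cl q n (hdr H j)) {h c : ℕ}
    (hc : chk H N h c = true) : Cl q (n + 1) h := by
  unfold chk at hc
  intro X hX
  have hbF := bF_val h
  generalize unD 4 (Nat.shiftRight h 25) = D at hc hX
  generalize Nat.shiftRight h 5 = L at hc hX
  generalize Nat.land (Nat.shiftRight h 1) 15 = f at hc hX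
  generalize hbb : bF h = b at hbF
  rw [← hbF] at hc
  have hb01 : b = 0 ∨ b = 1 := by
    rw [← hbb]; unfold bF
    cases Nat.beq (Nat.land h 1) 0
    · right; rfl
    · left; rfl
  simp only [Bool.and_eq_true, Bool.or_eq_true, Nat.ble_eq, List.any_eq_true] at hc
  obtain ⟨⟨⟨hD, hL⟩, hlast⟩, hit⟩ := hc
  have hD' := okD_sound hD
  have hD32 : ∀ m ∈ D, m < 32 := fun m hm => by have := hD' m hm; omega
  have hL7 : ∀ v < 5, lv L v ≤ 7 := by
    unfold okL at hL
    simp only [Bool.and_eq_true, Nat.ble_eq] at hL
    intro v hv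
    interval_cases v <;> omega
  obtain ⟨hi1, it2, hi2⟩ := items_sound hit
  apply step
  intro e he hea
  change Reply q n b e (X.erase e)
  have hX' := hX
  obtain ⟨R, F, hXe, hR, hcnt, hf, hp⟩ := hX
  by_cases heD : e ∈ D
  · obtain ⟨it', h'⟩ := hi1 e heD hea
    refine item_sound IH (hD32 e heD) ?_ hL7 b hb01 h' _ (Mt_erase_D hX' heD)
    intro m hm
    rw [ers_eq] at hm
    exact hD32 m (List.mem_of_mem_erase hm)
  · rw [hXe] at he
    rcases Multiset.mem_add.1 he with he | he
    · rcases Multiset.mem_add.1 he with he | he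
      · exact absurd (by simpa using he) heD
      · -- leftover
        have he1 : e = 1 := by
          rcases hR e he with rfl | ⟨v, hv, rfl⟩
          · exact absurd hea (by decide)
          · interval_cases v
            · rfl
            all_goals exact absurd hea (by decide)
        subst he1
        right
        have main : ∃ t ∈ X.erase 1, tb t b.val = true := by
          by_cases hF : 1 ≤ F
          · refine ⟨31, ?_, by rcases hb01 with rfl | rfl <;> rfl⟩
            rw [Multiset.mem_erase_of_ne (by norm_num), hXe]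
            exact Multiset.mem_add.2 (Or.inr (Multiset.mem_replicate.2 ⟨by omega, rfl⟩))
          · rcases hlast with (h1 | ⟨m, hm, hmb⟩) | h1
            · omega
            · refine ⟨m, ?_, hmb⟩
              have := hD' m hm
              rw [Multiset.mem_erase_of_ne (by omega), hXe]
              exact Multiset.mem_add.2 (Or.inl (Multiset.mem_add.2 (Or.inl (by simpa using hm))))
            · rcases hb01 with rfl | rfl
              · refine ⟨1, ?_, by decide⟩
                have h2 : 2 ≤ R.count 1 := by
                  have := hcnt 0 (by norm_num)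
                  simp only [Fin.val_zero] at h1
                  have h3 : (bif Nat.beq 0 0 then 2 else 1) = 2 := rfl
                  rw [h3] at h1
                  exact h1.trans this
                rw [← Multiset.count_pos, Multiset.count_erase_self, hXe, Multiset.count_add,
                  Multiset.count_add]
                omega
              · refine ⟨2, ?_, by decide⟩
                have h2 : 1 ≤ R.count 2 := by
                  have := hcnt 1 (by norm_num)
                  have h3 : (bif Nat.beq (1 : Fin 5).val 0 then 2 else 1) = 1 := rfl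
                  rw [h3] at h1
                  exact h1.trans this
                rw [Multiset.mem_erase_of_ne (by norm_num), hXe]
                exact Multiset.mem_add.2 (Or.inl (Multiset.mem_add.2 (Or.inr
                  (Multiset.count_pos.1 h2))))
        obtain ⟨t, ht, htb⟩ := main
        refine ⟨t, ht, htb, ?_⟩
        intro w hw hew
        exfalso
        obtain ⟨w, hw5⟩ := w
        interval_cases w
        · exact hw rfl
        all_goals (simp only at hew; exact absurd hew (by decide))
    · -- full
      obtain ⟨hF, rfl⟩ := Multiset.mem_replicate.1 he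
      have hX2 : Mt D L (bif Nat.beq f 0 then 2 else f) X := by
        cases h0 : Nat.beq f 0
        · rw [cond_false]; exact hX'
        · rw [cond_true]
          rw [Nat.beq_eq] at h0
          exact ⟨R, F, hXe, hR, hcnt, by omega, by omega⟩
      have h1 : 1 ≤ (bif Nat.beq f 0 then 2 else f) := by
        cases h0 : Nat.beq f 0
        · rw [cond_false]
          have : f ≠ 0 := by
            rintro rfl
            simp at h0
          omega
        · rw [cond_true]; norm_num
      exact item_sound IH (by norm_num) hD32 hL7 b hb01 hi2 _ (Mt_erase_full hX2 h1).2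

theorem chkAll_sound {H N : ℕ} : ∀ {l : List ℕ} {i : ℕ}, chkAll H N i l = true →
    ∀ j, i ≤ j → j < i + l.length → ∃ c, chk H N (hdr H j) c = true
  | [], i, _, j, h1, h2 => by simp at h2; omega
  | c :: cs, i, h, j, h1, h2 => by
    simp only [chkAll, Bool.and_eq_true] at h
    by_cases hj : j = i
    · subst hj; exact ⟨c, h.1⟩
    · refine chkAll_sound h.2 j ?_ ?_
      · simp only [Nat.succ_eq_add_one]; omega
      · simp only [List.length_cons, Nat.succ_eq_add_one] at h2 ⊢; omega

theorem table_sound {H N : ℕ} (q : ℕ) (hall : ∀ j < N, ∃ c, chk H N (hdr H j) c = true) :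
    ∀ n, ∀ j < N, Cl q n (hdr H j)
  | 0, _, _ => fun X _ => goodX_zero q 0 _ X
  | n + 1, j, hj => by
    obtain ⟨c, hc⟩ := hall j hj
    exact chk_sound (table_sound q hall n) hc

end TrailT
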